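import Pool.Agent.H84.SL.Targets

/-!
GZ: a function field of genus zero is rational (board `slg_modules`, MP_70ba79_ag).
-/

set_option autoImplicit false

namespace Pool.Agent.H39.SL

open SC Pool.Agent.H27.LV Pool.Agent.H84.SL

theorem pf_GZ (hGZ2 : T_GZ2) : T_GZ := by
  intro k K _ _ _ _ _ _ htr D hD hc P
  obtain ⟨f, h1, h2⟩ := hGZ2 k K htr D hD hc P
  have ht : Transcendental k f := by
    intro h
    rw [Pool.Agent.H36.SC.ord_eq_zero_of_isAlgebraic P h] at h1
    omega
  have hf0 : f ≠ 0 := by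
    rintro rfl
    rw [P.ord_zero] at h1
    omega
  refine ⟨f, h1, h2, ht, ?_⟩
  obtain ⟨-, -, h3⟩ := Pool.Agent.H76.KN.v5 k K f ht (Pool.Agent.H36.SC.fin_of_transc htr ht)
  have h4 : ∑ᶠ v : DV k K, (v.deg : ℤ) * max 0 (- v.ord f) = 1 := by
    rw [finsum_eq_single _ P]
    · rw [(rat k K htr P).1, h1]
      norm_num
    · intro v hv
      rcases h2 v hv with h | h
      · exact absurd h hf0
      · have : max 0 (- v.ord f) = 0 := max_eq_left (by omega)
        rw [this, mul_zero]
  rw [h4] at h3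
  have h5 : Module.finrank (IntermediateField.adjoin k {f}) K = 1 := by exact_mod_cast h3.symm
  exact IntermediateField.finrank_eq_one_iff_eq_top.1 h5

end Pool.Agent.H39.SL
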